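import Pool.Agent.Helper76.TC2.Goals

/-! Project TC2 (MP_ccd65d_gt), packet PK: packing for a metric comparable with `dd`. -/

set_option autoImplicit false

namespace Pool.Agent.Helper91.TC2.PK

open Pool.Agent.Helper76.TC (Pack dd)

theorem t (hPK : Pool.Agent.Helper76.TC.S_PK) : Pool.Agent.Helper76.TC2.S_PK2 := by
  intro m ε N d hε hN hd R0 x r R hr hrR hR F h1 h2
  have h3 := hPK m ε N R0 hε hN x (r / 46) R (by positivity)
    ((div_le_self hr.le (by norm_num)).trans hrR) hR F (fun y hy => (hd x y).1.trans (h1 y hy))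
    (fun y hy z hz hyz => by
      have h4 := h2 y hy z hz hyz
      have h5 := (hd y z).2
      rw [div_lt_iff₀ (by norm_num)]
      linarith)
  have h6 : R / (r / 46) = 46 * (R / r) := by
    field_simp
  rw [h6, Real.mul_rpow (by norm_num) (div_nonneg (hr.le.trans hrR) hr.le), ← mul_assoc] at h3
  exact h3

end Pool.Agent.Helper91.TC2.PK
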